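import Mathlib
import Pool.Agent.X132.RevE

/-!
# Balanced fractional revival between non-cospectral vertices
-/

namespace Pool.Agent.Results.MP_74778d_co.BalancedRevival

open Matrix Complex Pool.Agent.X132.FR Pool.Agent.X132.Rev

variable {V : Type} [Fintype V] [DecidableEq V]

/-- Balanced fractional revival from `a` to `b` at some positive time. -/
def Balanced (X : SimpleGraph V) [DecidableRel X.Adj] (a b : V) : Prop :=
  ∃ (τ : ℝ) (α β : ℂ), 0 < τ ∧ ‖α‖ = 1 / √2 ∧ ‖β‖ = 1 / √2 ∧
    walk (X.adjMatrix ℂ) τ *ᵥ Pi.single a 1 =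
      α • (Pi.single a 1 : V → ℂ) + β • (Pi.single b 1 : V → ℂ)

/-- Cospectral vertices: the orthogonal projections onto the eigenspaces have the same diagonal
entries at `a` and `b`. -/
def Cospectral (X : SimpleGraph V) [DecidableRel X.Adj] (a b : V) : Prop :=
  ∀ θ : ℝ, eproj (X.adjMatrix ℝ) θ a a = eproj (X.adjMatrix ℝ) θ b b

theorem not_cospectral : ¬ Cospectral graphA (.inl false) (.inl true) := by
  intro hco
  have h2 := sq2
  have h2p : (0 : ℝ) < √2 := by positivity
  have hs : (1 + √2 : ℝ) ≠ 1 - √2 := by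
    intro h; linarith
  have c1 : (1 + √2 : ℝ) ^ 2 = 2 * (1 + √2) + 1 := by linear_combination sq2
  have c2 : (1 - √2 : ℝ) ^ 2 = 2 * (1 - √2) + 1 := by linear_combination sq2
  have hp := cubicA c1
  have hm := cubicA c2
  have hA : (graphA.adjMatrix ℝ)ᵀ = graphA.adjMatrix ℝ := graphA.transpose_adjMatrix
  have hab : (Sum.inl false : Vert 647496 mA) ≠ Sum.inl true := by simp
  have n1 : (14076 + 17204 * ((1 + √2 : ℝ) - 1)) ≠ 14076 + 4692 * ((1 + √2 : ℝ) - 1) := by
    intro h; linarith
  have n2 : (14076 + 17204 * ((1 + √2 : ℝ) - 1)) ≠ 14076 - 14076 * ((1 + √2 : ℝ) - 1) := by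
    intro h; linarith
  have n3 : (14076 + 17204 * ((1 + √2 : ℝ) - 1)) ≠ 14076 + 17204 * ((1 - √2 : ℝ) - 1) := by
    intro h; linarith
  have n4 : (14076 + 17204 * ((1 + √2 : ℝ) - 1)) ≠ 14076 + 4692 * ((1 - √2 : ℝ) - 1) := by
    intro h; linarith
  have n5 : (14076 + 17204 * ((1 + √2 : ℝ) - 1)) ≠ 14076 - 14076 * ((1 - √2 : ℝ) - 1) := by
    intro h; linarith
  have ea := eproj_a hA hs hp hm n1 n2 n3 n4 n5 (.inl false)
  have eb := eproj_b hA hs hp hm n1 n2 n3 n4 n5 (.inl true)
  have h := hco (14076 + 17204 * ((1 + √2 : ℝ) - 1))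
  rw [ea, eb] at h
  obtain ⟨s1, s2, -⟩ := stepsA (R := ℝ) (1 + √2)
  rw [s2, s1, two_a hab, two_b hab] at h
  simp only [cell, lev1, lev2A] at h
  have hD : ((14076 + 17204 * ((1 + √2 : ℝ) - 1) - (14076 + 4692 * ((1 + √2 : ℝ) - 1))) *
      (14076 + 17204 * ((1 + √2 : ℝ) - 1) - (14076 - 14076 * ((1 + √2 : ℝ) - 1))))⁻¹ ≠ 0 := by
    apply inv_ne_zero
    apply mul_ne_zero
    · intro h; apply n1; linarith
    · intro h; apply n2; linarith
  have hE : ((1 + √2 : ℝ) - (1 - √2)) ≠ 0 := by
    intro h; apply hs; linarith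
  rw [div_mul_eq_mul_div, div_mul_eq_mul_div, div_left_inj' hE] at h
  have h4 : -(1 - √2) * (88059456 + 22014864 * (1 + √2 : ℝ) +
      (14076 + 4692 * √2) * (14076 - 14076 * √2)) = 22014864 + 132089184 * (1 + √2) +
      (14076 + 4692 * √2) * (14076 - 14076 * √2) * (1 + √2) := by
    apply mul_left_cancel₀ hD
    linear_combination h
  have h5 : 220148640 * √2 - 352237824 = 0 := by linear_combination h4 - 154104048 * h2
  have h6 : (√2 : ℝ) = 352237824 / 220148640 := by linarith
  rw [h6] at h2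
  norm_num at h2

/-- **Balanced fractional revival between non-cospectral vertices exists**: there is a finite simple
graph with two distinct vertices `a`, `b` which are not cospectral such that balanced fractional
revival occurs from `a` to `b` at some time `τ > 0`. -/
theorem result : ∃ (V : Type) (_ : Fintype V) (_ : DecidableEq V) (X : SimpleGraph V)
    (_ : DecidableRel X.Adj) (a b : V), a ≠ b ∧ ¬ Cospectral X a b ∧ Balanced X a b := by
  refine ⟨Vert 647496 mA, inferInstance, inferInstance, graphA, inferInstance, .inl false,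
    .inl true, by simp, not_cospectral, ?_⟩
  obtain ⟨α, β, h1, h2, h3⟩ := balancedA
  refine ⟨timeA, α, β, ?_, h1, h2, h3⟩
  unfold timeA
  positivity

end Pool.Agent.Results.MP_74778d_co.BalancedRevival
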